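import Mathlib

/-!
# Negative zeros of `x P' - β P`
-/

set_option autoImplicit false

namespace Pool.Agent.KS6_33.BD

open Polynomial Set

/-- The operator `P ↦ x P' - β P`. -/
noncomputable def D (β : ℝ) (P : ℝ[X]) : ℝ[X] := X * derivative P - C β * P

lemma D_coeff (β : ℝ) (P : ℝ[X]) (k : ℕ) : (D β P).coeff k = (k - β) * P.coeff k := by
  unfold D
  rw [coeff_sub, coeff_C_mul]
  rcases k with _ | k
  · simp
  · rw [coeff_X_mul, coeff_derivative]; push_cast; ring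

lemma D_eval (β : ℝ) (P : ℝ[X]) (x : ℝ) :
    (D β P).eval x = x * (derivative P).eval x - β * P.eval x := by
  simp [D]

/-- `P` has at least `k` distinct negative zeros. -/
def NR (P : ℝ[X]) (k : ℕ) : Prop :=
  ∃ c : ℕ → ℝ, (∀ i j, i < j → j < k → c i < c j) ∧ ∀ i < k, c i < 0 ∧ P.eval (c i) = 0

lemma NR.mono {P : ℝ[X]} {k l : ℕ} (h : NR P k) (hl : l ≤ k) : NR P l := by
  obtain ⟨c, hc, hz⟩ := h
  exact ⟨c, fun i j hij hj => hc i j hij (by omega), fun i hi => hz i (by omega)⟩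

lemma h_deriv (β : ℝ) (P : ℝ[X]) {x : ℝ} (hx : x < 0) :
    HasDerivAt (fun x : ℝ => (-x) ^ (-β) * P.eval x) ((-x) ^ (-β) * ((D β P).eval x / x)) x := by
  have hne : -x ≠ 0 := by linarith
  have hx0 : x ≠ 0 := hx.ne
  have h1 : HasDerivAt (fun x : ℝ => (-x) ^ (-β)) (-1 * -β * (-x) ^ (-β - 1)) x :=
    (hasDerivAt_neg x).rpow_const (Or.inl hne)
  have h2 := h1.mul (P.hasDerivAt x)
  refine h2.congr_deriv ?_
  rw [Real.rpow_sub_one hne, D_eval]
  field_simp
  ring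

lemma h_cont (β : ℝ) (P : ℝ[X]) {a b : ℝ} (hb : b < 0) :
    ContinuousOn (fun x : ℝ => (-x) ^ (-β) * P.eval x) (Icc a b) := by
  intro x hx
  exact (h_deriv β P (lt_of_le_of_lt hx.2 hb)).continuousAt.continuousWithinAt

lemma rolle_neg (β : ℝ) {P : ℝ[X]} {a b : ℝ} (hab : a < b) (hb : b < 0) (ha0 : P.eval a = 0)
    (hb0 : P.eval b = 0) : ∃ ξ, a < ξ ∧ ξ < b ∧ (D β P).eval ξ = 0 := by
  obtain ⟨ξ, hξ, h0⟩ := exists_hasDerivAt_eq_zero hab (h_cont β P hb) (by
    show (-a) ^ (-β) * P.eval a = (-b) ^ (-β) * P.eval b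
    rw [ha0, hb0, mul_zero, mul_zero])
    (fun x hx => h_deriv β P (hx.2.trans hb))
  refine ⟨ξ, hξ.1, hξ.2, ?_⟩
  have hξ0 : ξ < 0 := hξ.2.trans hb
  have h1 : 0 < (-ξ) ^ (-β) := Real.rpow_pos_of_pos (by linarith) _
  have h2 := (mul_eq_zero.1 h0).resolve_left h1.ne'
  exact (div_eq_zero_iff.1 h2).resolve_right hξ0.ne

lemma rolle_zero {β : ℝ} (hβ : β < 0) {P : ℝ[X]} {a : ℝ} (ha : a < 0) (ha0 : P.eval a = 0) :
    ∃ ξ, a < ξ ∧ ξ < 0 ∧ (D β P).eval ξ = 0 := by
  have hc : Continuous (fun x : ℝ => (-x) ^ (-β) * P.eval x) :=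
    (continuous_neg.rpow_const (fun x => Or.inr (by linarith))).mul P.continuous
  obtain ⟨ξ, hξ, h0⟩ := exists_hasDerivAt_eq_zero ha hc.continuousOn (by
    show (-a) ^ (-β) * P.eval a = (-(0 : ℝ)) ^ (-β) * P.eval 0
    rw [ha0, neg_zero, Real.zero_rpow (by linarith), mul_zero, zero_mul])
    (fun x hx => h_deriv β P hx.2)
  refine ⟨ξ, hξ.1, hξ.2, ?_⟩
  have h1 : 0 < (-ξ) ^ (-β) := Real.rpow_pos_of_pos (by linarith [hξ.2]) _
  have h2 := (mul_eq_zero.1 h0).resolve_left h1.ne'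
  exact (div_eq_zero_iff.1 h2).resolve_right hξ.2.ne

lemma c_le {c : ℕ → ℝ} {k : ℕ} (hc : ∀ i j, i < j → j < k → c i < c j) {i j : ℕ} (hij : i ≤ j)
    (hj : j < k) : c i ≤ c j := by
  rcases hij.eq_or_lt with h | h
  · rw [h]
  · exact (hc i j h hj).le

/-- One zero can be lost. -/
lemma NR.step {P : ℝ[X]} {k : ℕ} (h : NR P (k + 1)) (β : ℝ) : NR (D β P) k := by
  obtain ⟨c, hc, hz⟩ := h
  have : ∀ i, i < k → ∃ ξ, c i < ξ ∧ ξ < c (i + 1) ∧ (D β P).eval ξ = 0 := fun i hi =>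
    rolle_neg β (hc i (i + 1) (Nat.lt_succ_self i) (by omega)) (hz (i + 1) (by omega)).1
      (hz i (by omega)).2 (hz (i + 1) (by omega)).2
  choose! d hd1 hd2 hd3 using this
  refine ⟨d, ?_, fun i hi => ⟨(hd2 i hi).trans (hz (i + 1) (by omega)).1, hd3 i hi⟩⟩
  intro i j hij hj
  have h1 := hd2 i (by omega)
  have h2 := hd1 j hj
  have h3 := c_le hc (show i + 1 ≤ j by omega) (by omega)
  linarith

/-- No zero is lost for negative `β`. -/
lemma NR.step_neg {P : ℝ[X]} {k : ℕ} (h : NR P k) {β : ℝ} (hβ : β < 0) : NR (D β P) k := by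
  rcases k with _ | k
  · exact ⟨fun _ => 0, fun i j _ hj => absurd hj (Nat.not_lt_zero _),
      fun i hi => absurd hi (Nat.not_lt_zero _)⟩
  obtain ⟨c, hc, hz⟩ := h
  have : ∀ i, i < k + 1 → ∃ ξ, c i < ξ ∧ (i < k → ξ < c (i + 1)) ∧ ξ < 0 ∧ (D β P).eval ξ = 0 := by
    intro i hi
    rcases Nat.lt_or_ge i k with h1 | h1
    · obtain ⟨ξ, a1, a2, a3⟩ := rolle_neg β (hc i (i + 1) (Nat.lt_succ_self i) (by omega))
        (hz (i + 1) (by omega)).1 (hz i (by omega)).2 (hz (i + 1) (by omega)).2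
      exact ⟨ξ, a1, fun _ => a2, a2.trans (hz (i + 1) (by omega)).1, a3⟩
    · obtain ⟨ξ, a1, a2, a3⟩ := rolle_zero hβ (hz i hi).1 (hz i hi).2
      exact ⟨ξ, a1, fun h2 => absurd h2 (by omega), a2, a3⟩
  choose! d hd1 hd2 hd3 hd4 using this
  refine ⟨d, ?_, fun i hi => ⟨hd3 i hi, hd4 i hi⟩⟩
  intro i j hij hj
  have h1 := hd2 i (by omega) (by omega)
  have h2 := hd1 j hj
  have h3 := c_le hc (show i + 1 ≤ j by omega) (by omega)
  linarith

lemma ivt {P : ℝ[X]} {σ a b : ℝ} (hab : a < b) (h : σ * P.eval a * (σ * P.eval b) < 0) :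
    ∃ ξ, a < ξ ∧ ξ < b ∧ P.eval ξ = 0 := by
  have hσ : σ ≠ 0 := by
    rintro rfl
    simp at h
  have hc : ContinuousOn (fun x => σ * P.eval x) (Icc a b) :=
    (continuous_const.mul P.continuous).continuousOn
  rcases mul_neg_iff.1 h with ⟨h1, h2⟩ | ⟨h1, h2⟩
  · obtain ⟨ξ, hξ, h0⟩ := intermediate_value_Ioo' hab.le hc (show (0 : ℝ) ∈ _ from ⟨h2, h1⟩)
    exact ⟨ξ, hξ.1, hξ.2, (mul_eq_zero.1 h0).resolve_left hσ⟩
  · obtain ⟨ξ, hξ, h0⟩ := intermediate_value_Ioo hab.le hc (show (0 : ℝ) ∈ _ from ⟨h1, h2⟩)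
    exact ⟨ξ, hξ.1, hξ.2, (mul_eq_zero.1 h0).resolve_left hσ⟩

/-- One zero is gained under a sign condition. -/
lemma NR.improve {P : ℝ[X]} {k : ℕ} (h : NR P k) {β x0 σ : ℝ} (hβ : 0 < β) (hx0 : x0 < 0)
    (hpos : ∀ x, x0 ≤ x → x ≤ 0 → 0 < σ * P.eval x) (hD : 0 < σ * (D β P).eval x0) :
    NR (D β P) (k + 1) := by
  obtain ⟨c, hc, hz⟩ := h
  have hcx : ∀ i < k, c i < x0 := by
    intro i hi
    by_contra hcon
    push Not at hcon
    have := hpos (c i) hcon (hz i hi).1.le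
    rw [(hz i hi).2, mul_zero] at this
    exact lt_irrefl _ this
  have hD0 : σ * (D β P).eval 0 < 0 := by
    have h1 := hpos 0 hx0.le le_rfl
    rw [D_eval]
    nlinarith
  obtain ⟨e2, he2, he2', he20⟩ := ivt (P := D β P) (σ := σ) hx0 (mul_neg_of_pos_of_neg hD hD0)
  rcases k with _ | k
  · refine ⟨fun _ => e2, fun i j hij hj => by omega, fun i _ => ⟨he2', he20⟩⟩
  · have this : ∀ i, i < k → ∃ ξ, c i < ξ ∧ ξ < c (i + 1) ∧ (D β P).eval ξ = 0 := fun i hi =>
      rolle_neg β (hc i (i + 1) (Nat.lt_succ_self i) (by omega)) (hz (i + 1) (by omega)).1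
        (hz i (by omega)).2 (hz (i + 1) (by omega)).2
    choose! d hd1 hd2 hd3 using this
    -- the zero between the last zero and `x0`
    have hck := hcx k (by omega)
    have hck0 := (hz k (by omega)).2
    obtain ⟨ξ, hξ, hs⟩ := exists_hasDerivAt_eq_slope
      (fun x : ℝ => σ * ((-x) ^ (-β) * P.eval x))
      (fun x : ℝ => σ * ((-x) ^ (-β) * ((D β P).eval x / x))) hck
      (continuousOn_const.mul (h_cont β P hx0))
      (fun x hx => (h_deriv β P (hx.2.trans hx0)).const_mul σ)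
    have hξ0 : ξ < 0 := hξ.2.trans hx0
    have h1 : 0 < (-ξ) ^ (-β) := Real.rpow_pos_of_pos (by linarith) _
    have h2 : 0 < (-x0) ^ (-β) := Real.rpow_pos_of_pos (by linarith) _
    have h3 : 0 < σ * P.eval x0 := hpos x0 le_rfl hx0.le
    have h4 : 0 < σ * ((-ξ) ^ (-β) * ((D β P).eval ξ / ξ)) := by
      rw [hs, hck0, mul_zero, mul_zero, sub_zero]
      apply div_pos _ (by linarith)
      have : σ * ((-x0) ^ (-β) * P.eval x0) = (-x0) ^ (-β) * (σ * P.eval x0) := by ring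
      rw [this]
      exact mul_pos h2 h3
    have h5 : σ * (D β P).eval ξ < 0 := by
      have e : σ * ((-ξ) ^ (-β) * ((D β P).eval ξ / ξ)) =
          ((-ξ) ^ (-β)) * ((σ * (D β P).eval ξ) / ξ) := by ring
      rw [e] at h4
      have h6 := (mul_pos_iff_of_pos_left h1).1 h4
      by_contra hcon
      push Not at hcon
      have := div_nonpos_of_nonneg_of_nonpos hcon hξ0.le
      linarith
    obtain ⟨e1, he1, he1', he10⟩ := ivt (P := D β P) (σ := σ) hξ.2 (mul_neg_of_neg_of_pos h5 hD)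
    set g : ℕ → ℝ := fun i => if i < k then d i else if i = k then e1 else e2 with hg
    have g1 : ∀ i, i < k → g i = d i := fun i hi => by simp only [hg, if_pos hi]
    have g2 : g k = e1 := by simp [hg]
    have g3 : g (k + 1) = e2 := by simp [hg]
    have lt1 : ∀ i, i < k → d i < c k := fun i hi =>
      (hd2 i hi).trans_le (c_le hc (show i + 1 ≤ k by omega) (by omega))
    refine ⟨g, ?_, ?_⟩
    · intro i j hij hj
      rcases Nat.lt_or_ge j k with h6 | h6
      · rw [g1 i (by omega), g1 j h6]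
        have a1 := hd2 i (by omega)
        have a2 := hd1 j h6
        have a3 := c_le hc (show i + 1 ≤ j by omega) (by omega)
        linarith
      · rcases Nat.lt_or_ge i k with h7 | h7
        · have a1 := lt1 i h7
          have a2 := hξ.1
          rw [g1 i h7]
          rcases h6.eq_or_lt with h8 | h8
          · rw [← h8, g2]; linarith
          · have : j = k + 1 := by omega
            rw [this, g3]; linarith
        · have e1' : i = k := by omega
          have e2' : j = k + 1 := by omega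
          rw [e1', e2', g2, g3]; linarith
    · intro i hi
      rcases Nat.lt_or_ge i k with h7 | h7
      · rw [g1 i h7]
        exact ⟨by have := lt1 i h7; linarith, hd3 i h7⟩
      · rcases h7.eq_or_lt with h8 | h8
        · rw [← h8, g2]; exact ⟨by linarith, he10⟩
        · have : i = k + 1 := by omega
          rw [this, g3]; exact ⟨he2', he20⟩

end Pool.Agent.KS6_33.BD
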