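import Mathlib
import Pool.Agent.KS6_33.BD.Poly

/-!
# Counting the zeros of a limit of polynomials with few zeros off the negative axis
-/

set_option autoImplicit false

namespace Pool.Agent.KS6_33.BD

open Polynomial Set Filter Topology

lemma aeval_re (P : ℝ[X]) (x : ℝ) : aeval (x : ℂ) P = ((P.eval x : ℝ) : ℂ) := by
  rw [← Complex.coe_algebraMap, aeval_algebraMap_apply, coe_aeval_eq_eval]

/-- Splitting off the negative zeros. -/
lemma factor {P : ℝ[X]} {k r : ℕ} (h : NR P k) (hd : P.natDegree ≤ k + r) :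
    ∃ (t : ℕ → ℝ) (A : ℝ[X]), (∀ i < k, 0 < t i) ∧ A.natDegree ≤ r ∧
      ∀ x : ℂ, aeval x P = aeval x A * ∏ i ∈ Finset.range k, (1 + (t i : ℂ) * x) := by
  obtain ⟨c, hc, hz⟩ := h
  have hne : ∀ i < k, ∀ j < k, i ≠ j → c i ≠ c j := by
    intro i hi j hj hij
    rcases lt_or_gt_of_ne hij with h | h
    · exact (hc i j h hj).ne
    · exact (hc j i h hi).ne'
  have hdvd : ∏ i ∈ Finset.range k, (X - C (c i)) ∣ P := by
    apply Finset.prod_dvd_of_coprime
    · intro i hi j hj hij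
      have h1 := hne i (by simpa using hi) j (by simpa using hj) hij
      exact isCoprime_X_sub_C_of_isUnit_sub (sub_ne_zero.2 h1).isUnit
    · intro i hi
      exact dvd_iff_isRoot.2 (hz i (Finset.mem_range.1 hi)).2
  obtain ⟨Q, hQ⟩ := hdvd
  refine ⟨fun i => -(c i)⁻¹, C (∏ i ∈ Finset.range k, (-(c i))) * Q, ?_, ?_, ?_⟩
  · intro i hi
    have := (hz i hi).1
    have := inv_lt_zero.2 this
    linarith
  · by_cases hQ0 : Q = 0
    · rw [hQ0, mul_zero]; simp
    · have hm : (∏ i ∈ Finset.range k, (X - C (c i))).Monic := monic_prod_X_sub_C _ _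
      have h1 : P.natDegree = k + Q.natDegree := by
        rw [hQ, hm.natDegree_mul' hQ0, natDegree_prod_of_monic _ _ fun i _ => monic_X_sub_C _]
        simp
      have h2 := natDegree_C_mul_le (∏ i ∈ Finset.range k, (-(c i))) Q
      omega
  · intro x
    rw [hQ, map_mul, map_mul, aeval_C, map_prod]
    have e : ∏ i ∈ Finset.range k, aeval x (X - C (c i)) =
        (algebraMap ℝ ℂ) (∏ i ∈ Finset.range k, (-(c i))) *
          ∏ i ∈ Finset.range k, (1 + ((-(c i)⁻¹ : ℝ) : ℂ) * x) := by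
      rw [map_prod, ← Finset.prod_mul_distrib]
      refine Finset.prod_congr rfl fun i hi => ?_
      have h1 : (c i : ℂ) ≠ 0 := by
        exact_mod_cast (hz i (Finset.mem_range.1 hi)).1.ne
      simp only [map_sub, aeval_X, aeval_C, map_neg, Complex.coe_algebraMap]
      push_cast
      field_simp
      ring
    rw [e]; ring

lemma sum_le_prod {a : ℕ → ℝ} {k : ℕ} (ha : ∀ i < k, 0 ≤ a i) :
    1 + ∑ i ∈ Finset.range k, a i ≤ ∏ i ∈ Finset.range k, (1 + a i) := by
  induction k with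
  | zero => simp
  | succ k ih =>
    rw [Finset.sum_range_succ, Finset.prod_range_succ]
    have h1 := ih fun i hi => ha i (by omega)
    have h2 := ha k (by omega)
    have h3 : 0 ≤ ∑ i ∈ Finset.range k, a i :=
      Finset.sum_nonneg fun i hi => ha i (by have := Finset.mem_range.1 hi; omega)
    nlinarith

lemma sector {K : Set ℂ} (hK : IsCompact K) (hs : K ⊆ Complex.slitPlane) :
    ∃ Cc : ℝ, 0 ≤ Cc ∧ ∀ x ∈ K, ∀ t : ℝ, 0 ≤ t → Real.exp (-(Cc * t)) ≤ ‖1 + (t : ℂ) * x‖ := by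
  rcases K.eq_empty_or_nonempty with rfl | ⟨k0, hk0⟩
  · exact ⟨0, le_rfl, fun x hx => absurd hx (Set.notMem_empty x)⟩
  obtain ⟨M, hM⟩ := hK.isBounded.exists_norm_le
  set M' : ℝ := |M| + 1 with hM'
  have hM'0 : 0 < M' := by positivity
  have hMK : ∀ x ∈ K, ‖x‖ ≤ M' := fun x hx => (hM x hx).trans (by
    rw [hM']; linarith [le_abs_self M])
  set g : ℝ × ℂ → ℂ := fun p => (1 - p.1 : ℝ) • (1 : ℂ) + (p.1 : ℝ) • p.2 with hg
  have hgc : Continuous g := by
    rw [hg]; fun_prop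
  have hK' : IsCompact (g '' (Icc 0 1 ×ˢ K)) := (isCompact_Icc.prod hK).image hgc
  have hne : (g '' (Icc 0 1 ×ˢ K)).Nonempty :=
    ⟨g (0, k0), ⟨(0, k0), ⟨by simp, hk0⟩, rfl⟩⟩
  have hslit : ∀ y ∈ g '' (Icc 0 1 ×ˢ K), y ≠ 0 := by
    rintro _ ⟨⟨s, x⟩, ⟨hs1, hx⟩, rfl⟩ h0
    have h1 := Complex.starConvex_one_slitPlane (hs hx) (a := 1 - s) (b := s)
      (by have := hs1.2; simp only at this; linarith) hs1.1 (by ring)
    simp only [hg] at h0
    rw [h0] at h1
    simp [Complex.mem_slitPlane_iff] at h1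
  obtain ⟨y0, hy0, hmin⟩ := hK'.exists_isMinOn hne continuous_norm.continuousOn
  set κ := ‖y0‖ with hκ
  have hκ0 : 0 < κ := norm_pos_iff.2 (hslit y0 hy0)
  refine ⟨2 * M' * (1 + |Real.log κ|), by positivity, ?_⟩
  intro x hx t ht
  rcases le_total (M' * t) (1 / 2) with h1 | h1
  · have h2 : 1 - M' * t ≤ ‖1 + (t : ℂ) * x‖ := by
      have h3 : ‖(t : ℂ) * x‖ ≤ M' * t := by
        rw [norm_mul, Complex.norm_real, Real.norm_of_nonneg ht, mul_comm]
        exact mul_le_mul_of_nonneg_right (hMK x hx) ht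
      have h4 := norm_sub_norm_le (1 : ℂ) (-((t : ℂ) * x))
      rw [norm_one, norm_neg, sub_neg_eq_add] at h4
      linarith
    have h5 : Real.exp (-(2 * (M' * t))) ≤ 1 - M' * t := by
      have h6 := Real.add_one_le_exp (2 * (M' * t))
      have h7 : 0 ≤ M' * t := by positivity
      rw [Real.exp_neg, inv_le_comm₀ (Real.exp_pos _) (by linarith)]
      refine le_trans ?_ h6
      rw [inv_le_iff_one_le_mul₀ (by linarith)]
      nlinarith
    refine le_trans (Real.exp_le_exp.2 ?_) (h5.trans h2)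
    have h8 : 0 ≤ |Real.log κ| := abs_nonneg _
    have h9 : 0 ≤ M' * t := by positivity
    nlinarith
  · have h2 : κ ≤ ‖1 + (t : ℂ) * x‖ := by
      have h3 : (1 : ℂ) + (t : ℂ) * x = ((1 + t : ℝ) : ℂ) * g (t / (1 + t), x) := by
        have : (1 : ℂ) + (t : ℂ) ≠ 0 := by
          have : (1 + t : ℝ) ≠ 0 := by positivity
          exact_mod_cast this
        simp only [hg, Complex.real_smul]
        push_cast
        field_simp
        ring
      have h4 : κ ≤ ‖g (t / (1 + t), x)‖ := hmin ⟨(t / (1 + t), x), ⟨⟨by positivity, by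
        show t / (1 + t) ≤ 1
        rw [div_le_one (by positivity)]; linarith⟩, hx⟩, rfl⟩
      rw [h3, norm_mul, Complex.norm_real, Real.norm_of_nonneg (by positivity)]
      have h5 : 0 ≤ ‖g (t / (1 + t), x)‖ := norm_nonneg _
      nlinarith
    refine le_trans ?_ h2
    rw [← Real.exp_log hκ0, Real.exp_le_exp, Real.exp_log hκ0]
    have h8 : 0 ≤ |Real.log κ| := abs_nonneg _
    have h9 := neg_abs_le (Real.log κ)
    nlinarith

/-- In the limit the zeros off the negative axis are those of a polynomial of degree at most `r`. -/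
theorem limit_factor {f : ℂ → ℂ} {P : ℕ → ℝ[X]} {r : ℕ}
    (hlim : ∀ x : ℂ, Tendsto (fun N => aeval x (P N)) atTop (𝓝 (f x))) (hf0 : f 0 ≠ 0)
    (hP : ∀ N, NR (P N) N ∧ (P N).natDegree ≤ N + r) :
    ∃ A : ℝ[X], A ≠ 0 ∧ A.natDegree ≤ r ∧ ∀ K : Set ℂ, IsCompact K → K ⊆ Complex.slitPlane →
      ∃ c > 0, ∀ x ∈ K, c * ‖aeval x A‖ ≤ ‖f x‖ := by
  classical
  choose t A ht hA hfac using fun N => factor (hP N).1 (hP N).2
  have hfacR : ∀ N (x : ℝ), (P N).eval x =
      (A N).eval x * ∏ i ∈ Finset.range N, (1 + t N i * x) := by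
    intro N x
    have h1 := hfac N x
    rw [aeval_re, aeval_re] at h1
    exact_mod_cast h1
  have hlimR : ∀ x : ℝ, Tendsto (fun N => (P N).eval x) atTop (𝓝 (f x).re) := by
    intro x
    have h1 := (Complex.continuous_re.tendsto _).comp (hlim x)
    refine h1.congr fun N => ?_
    simp only [Function.comp, aeval_re, Complex.ofReal_re]
  have hprod : ∀ N (x : ℝ), 0 ≤ x → 1 ≤ ∏ i ∈ Finset.range N, (1 + t N i * x) := by
    intro N x hx
    have h1 := sum_le_prod (a := fun i => t N i * x) (k := N)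
      fun i hi => mul_nonneg (ht N i hi).le hx
    have h2 : 0 ≤ ∑ i ∈ Finset.range N, t N i * x :=
      Finset.sum_nonneg fun i hi => mul_nonneg (ht N i (Finset.mem_range.1 hi)).le hx
    linarith
  have hbd : ∀ x : ℝ, 0 ≤ x → ∃ B : ℝ, ∀ N, |(A N).eval x| ≤ B := by
    intro x hx
    obtain ⟨B, hB⟩ := (Metric.isBounded_range_of_tendsto _ (hlimR x)).exists_norm_le
    refine ⟨B, fun N => ?_⟩
    have h1 : ‖(P N).eval x‖ ≤ B := hB _ ⟨N, rfl⟩
    rw [Real.norm_eq_abs, hfacR, abs_mul] at h1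
    have h2 := hprod N x hx
    rw [abs_of_pos (show (0 : ℝ) < ∏ i ∈ Finset.range N, (1 + t N i * x) by linarith)] at h1
    have h3 := abs_nonneg ((A N).eval x)
    nlinarith
  choose! B hB using hbd
  set v : ℕ → Fin (r + 1) → ℝ := fun N j => (A N).eval (j : ℝ) with hv
  have hvb : ∀ N, v N ∈ Metric.closedBall (0 : Fin (r + 1) → ℝ)
      (∑ j : Fin (r + 1), |B (j : ℝ)|) := by
    intro N
    rw [mem_closedBall_zero_iff, pi_norm_le_iff_of_nonneg (by positivity)]
    intro j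
    rw [Real.norm_eq_abs]
    refine (hB (j : ℝ) (by positivity) N).trans ((le_abs_self _).trans ?_)
    exact Finset.single_le_sum (f := fun j : Fin (r + 1) => |B (j : ℝ)|)
      (fun _ _ => abs_nonneg _) (Finset.mem_univ j)
  obtain ⟨y, -, φ, hφ, hy⟩ := tendsto_subseq_of_bounded Metric.isBounded_closedBall hvb
  set nd : Fin (r + 1) → ℝ := fun j => (j : ℝ) with hnd
  have hinj : Set.InjOn nd (Finset.univ : Finset (Fin (r + 1))) := by
    intro i _ j _ hij
    simp only [hnd] at hij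
    exact Fin.ext (by exact_mod_cast hij)
  have hint : ∀ N, A N = Lagrange.interpolate Finset.univ nd (v N) := by
    intro N
    apply Lagrange.eq_interpolate_of_eval_eq _ hinj
    · rw [Finset.card_univ, Fintype.card_fin]
      refine degree_le_natDegree.trans_lt ?_
      exact_mod_cast Nat.lt_succ_of_le (hA N)
    · intro i _; rfl
  have hev : ∀ (w : Fin (r + 1) → ℝ) (x : ℂ), aeval x (Lagrange.interpolate Finset.univ nd w) =
      ∑ j, (w j : ℂ) * aeval x (Lagrange.basis Finset.univ nd j) := by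
    intro w x
    rw [Lagrange.interpolate_apply, map_sum]
    refine Finset.sum_congr rfl fun j _ => ?_
    rw [map_mul, aeval_C]; rfl
  set A' := Lagrange.interpolate Finset.univ nd y with hA'
  have hAlim : ∀ x : ℂ, Tendsto (fun N => aeval x (A (φ N))) atTop (𝓝 (aeval x A')) := by
    intro x
    rw [hA', hev]
    have h1 : ∀ N, aeval x (A (φ N)) =
        ∑ j, (v (φ N) j : ℂ) * aeval x (Lagrange.basis Finset.univ nd j) := by
      intro N
      rw [hint (φ N), hev]
    simp_rw [h1]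
    refine tendsto_finsetSum _ fun j _ => ?_
    refine Tendsto.mul_const _ ?_
    have h2 := tendsto_pi_nhds.1 hy j
    exact (Complex.continuous_ofReal.tendsto _).comp h2
  have hA0 : A' ≠ 0 := by
    intro h0
    have h1 := hAlim 0
    rw [h0, map_zero] at h1
    have h2 : ∀ N, aeval (0 : ℂ) (P N) = aeval (0 : ℂ) (A N) := by
      intro N
      rw [hfac N 0]; simp
    have h3 := (hlim 0).comp hφ.tendsto_atTop
    have h4 := tendsto_nhds_unique (h3.congr fun N => by simp only [Function.comp]; exact h2 _) h1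
    exact hf0 h4
  obtain ⟨x1, hx1, hx1'⟩ : ∃ n : ℕ, 0 < n ∧ A'.eval (n : ℝ) ≠ 0 := by
    by_contra hcon
    push Not at hcon
    apply hA0
    apply eq_zero_of_infinite_isRoot
    refine Set.Infinite.mono (s := Set.range fun n : ℕ => ((n + 1 : ℕ) : ℝ)) ?_
      (Set.infinite_range_of_injective fun a b hab => by
        simp only [Nat.cast_inj] at hab; omega)
    rintro _ ⟨n, rfl⟩
    exact hcon (n + 1) (Nat.succ_pos n)
  have hx1r : (1 : ℝ) ≤ x1 := by exact_mod_cast hx1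
  have hAlimR : Tendsto (fun N => (A (φ N)).eval (x1 : ℝ)) atTop (𝓝 (A'.eval (x1 : ℝ))) := by
    have h1 := (Complex.continuous_re.tendsto _).comp (hAlim ((x1 : ℝ) : ℂ))
    rw [aeval_re, Complex.ofReal_re] at h1
    refine h1.congr fun N => ?_
    simp only [Function.comp]
    rw [aeval_re, Complex.ofReal_re]
  have hBlim : Tendsto (fun N => ∏ i ∈ Finset.range (φ N), (1 + t (φ N) i * (x1 : ℝ))) atTop
      (𝓝 ((f ((x1 : ℝ) : ℂ)).re / A'.eval (x1 : ℝ))) := by
    have h1 := ((hlimR x1).comp hφ.tendsto_atTop).div hAlimR hx1'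
    refine h1.congr' ?_
    filter_upwards [hAlimR.eventually_ne hx1'] with N hN
    show (P (φ N)).eval (x1 : ℝ) / (A (φ N)).eval (x1 : ℝ) = _
    rw [hfacR, mul_div_cancel_left₀ _ hN]
  obtain ⟨M, hM⟩ := (Metric.isBounded_range_of_tendsto _ hBlim).exists_norm_le
  have hsum : ∀ N, ∑ i ∈ Finset.range (φ N), t (φ N) i ≤ M := by
    intro N
    have h1 : ‖∏ i ∈ Finset.range (φ N), (1 + t (φ N) i * (x1 : ℝ))‖ ≤ M := hM _ ⟨N, rfl⟩
    rw [Real.norm_eq_abs] at h1
    have h2 := (le_abs_self _).trans h1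
    have h3 := sum_le_prod (a := fun i => t (φ N) i * (x1 : ℝ)) (k := φ N)
      fun i hi => mul_nonneg (ht _ i hi).le (by linarith)
    rw [← Finset.sum_mul] at h3
    have h4 : 0 ≤ ∑ i ∈ Finset.range (φ N), t (φ N) i :=
      Finset.sum_nonneg fun i hi => (ht _ i (Finset.mem_range.1 hi)).le
    nlinarith
  refine ⟨A', hA0, ?_, ?_⟩
  · have h1 := Lagrange.degree_interpolate_lt y hinj
    rw [Finset.card_univ, Fintype.card_fin, ← hA'] at h1
    have h2 := (natDegree_lt_iff_degree_lt hA0).2 h1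
    omega
  · intro K hK hKs
    obtain ⟨Cc, hC0, hC⟩ := sector hK hKs
    refine ⟨Real.exp (-(Cc * M)), Real.exp_pos _, ?_⟩
    intro x hx
    have l1 : Tendsto (fun N => Real.exp (-(Cc * M)) * ‖aeval x (A (φ N))‖) atTop
        (𝓝 (Real.exp (-(Cc * M)) * ‖aeval x A'‖)) := (hAlim x).norm.const_mul _
    have l2 : Tendsto (fun N => ‖aeval x (P (φ N))‖) atTop (𝓝 ‖f x‖) :=
      ((hlim x).comp hφ.tendsto_atTop).norm
    refine le_of_tendsto_of_tendsto' l1 l2 fun N => ?_
    rw [hfac, norm_mul, mul_comm]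
    refine mul_le_mul_of_nonneg_left ?_ (norm_nonneg _)
    rw [norm_prod]
    calc Real.exp (-(Cc * M)) ≤ Real.exp (-(Cc * ∑ i ∈ Finset.range (φ N), t (φ N) i)) := by
          apply Real.exp_le_exp.2
          have := mul_le_mul_of_nonneg_left (hsum N) hC0
          linarith
      _ = ∏ i ∈ Finset.range (φ N), Real.exp (-(Cc * t (φ N) i)) := by
          rw [← Real.exp_sum, Finset.mul_sum, Finset.sum_neg_distrib]
      _ ≤ ∏ i ∈ Finset.range (φ N), ‖1 + (t (φ N) i : ℂ) * x‖ :=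
          Finset.prod_le_prod (fun i _ => (Real.exp_pos _).le) fun i hi =>
            hC x hx _ (ht _ i (Finset.mem_range.1 hi)).le

/-- The same with the hypothesis for all large `N`. -/
theorem limit_factor' {f : ℂ → ℂ} {P : ℕ → ℝ[X]} {r : ℕ}
    (hlim : ∀ x : ℂ, Tendsto (fun N => aeval x (P N)) atTop (𝓝 (f x))) (hf0 : f 0 ≠ 0)
    (hP : ∀ᶠ N in atTop, NR (P N) N ∧ (P N).natDegree ≤ N + r) :
    ∃ A : ℝ[X], A ≠ 0 ∧ A.natDegree ≤ r ∧ ∀ K : Set ℂ, IsCompact K → K ⊆ Complex.slitPlane →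
      ∃ c > 0, ∀ x ∈ K, c * ‖aeval x A‖ ≤ ‖f x‖ := by
  classical
  obtain ⟨N0, hN0⟩ := eventually_atTop.1 hP
  refine limit_factor (P := fun N => if N0 ≤ N then P N else 0) (r := r) ?_ hf0 ?_
  · intro x
    refine (hlim x).congr' ?_
    filter_upwards [eventually_ge_atTop N0] with N hN
    rw [if_pos hN]
  · intro N
    by_cases hN : N0 ≤ N
    · simp only [if_pos hN]
      exact hN0 N hN
    · simp only [if_neg hN]
      refine ⟨⟨fun i => (i : ℝ) - N, ?_, ?_⟩, by simp⟩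
      · intro i j hij _
        have : (i : ℝ) < j := by exact_mod_cast hij
        show (i : ℝ) - N < (j : ℝ) - N
        linarith
      · intro i hi
        have : (i : ℝ) < N := by exact_mod_cast hi
        exact ⟨by show (i : ℝ) - N < 0; linarith, by simp⟩

/-- A lower bound by a polynomial bounds the order of a zero. -/
lemma order_le {g : ℂ → ℂ} {z : ℂ} {Q : ℂ[X]} (hQ : Q ≠ 0) (hg : AnalyticAt ℂ g z) {c : ℝ}
    (hc : 0 < c) (h : ∀ᶠ w in 𝓝 z, c * ‖Q.eval w‖ ≤ ‖g w‖) :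
    analyticOrderAt g z ≤ Q.rootMultiplicity z := by
  by_contra hcon
  push Not at hcon
  have h1 : ((Q.rootMultiplicity z + 1 : ℕ) : ℕ∞) ≤ analyticOrderAt g z := by
    push_cast
    exact Order.add_one_le_of_lt hcon
  obtain ⟨k, hk, hgk⟩ := (natCast_le_analyticOrderAt hg).1 h1
  obtain ⟨q, hq, hqz⟩ := exists_eq_pow_rootMultiplicity_mul_and_not_dvd Q hQ z
  set m := Q.rootMultiplicity z
  have hqz' : q.eval z ≠ 0 := fun h0 => hqz (dvd_iff_isRoot.2 h0)
  have h2 : ∀ᶠ w in 𝓝[≠] z, c * ‖q.eval w‖ ≤ ‖w - z‖ * ‖k w‖ := by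
    filter_upwards [h.filter_mono nhdsWithin_le_nhds, hgk.filter_mono nhdsWithin_le_nhds,
      self_mem_nhdsWithin] with w hw1 hw2 hw3
    have hne : 0 < ‖w - z‖ := norm_pos_iff.2 (sub_ne_zero.2 hw3)
    rw [hw2, hq, eval_mul, eval_pow, eval_sub, eval_X, eval_C, norm_mul, norm_pow, smul_eq_mul,
      norm_mul, norm_pow, pow_succ] at hw1
    have hp : 0 < ‖w - z‖ ^ m := by positivity
    have e1 : c * (‖w - z‖ ^ m * ‖q.eval w‖) = ‖w - z‖ ^ m * (c * ‖q.eval w‖) := by ring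
    have e2 : ‖w - z‖ ^ m * ‖w - z‖ * ‖k w‖ = ‖w - z‖ ^ m * (‖w - z‖ * ‖k w‖) := by ring
    rw [e1, e2] at hw1
    exact le_of_mul_le_mul_left hw1 hp
  have l1 : Tendsto (fun w => c * ‖q.eval w‖) (𝓝[≠] z) (𝓝 (c * ‖q.eval z‖)) :=
    ((q.continuous.tendsto z).norm.const_mul c).mono_left nhdsWithin_le_nhds
  have l2 : Tendsto (fun w => ‖w - z‖ * ‖k w‖) (𝓝[≠] z) (𝓝 (‖z - z‖ * ‖k z‖)) := by
    have : Tendsto (fun w => ‖w - z‖ * ‖k w‖) (𝓝 z) (𝓝 (‖z - z‖ * ‖k z‖)) :=
      ((continuous_id.sub continuous_const).tendsto z).norm.mul hk.continuousAt.tendsto.norm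
    exact this.mono_left nhdsWithin_le_nhds
  have h3 := le_of_tendsto_of_tendsto l1 l2 h2
  rw [sub_self, norm_zero, zero_mul] at h3
  have := norm_pos_iff.2 hqz'
  nlinarith

end Pool.Agent.KS6_33.BD
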