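import Mathlib
import Pool.Agent.KS6_33.BD.Count
import Pool.Graph.R_seed8.R259.Bes

/-!
# Products of the operators `x d/dx - β` on the approximating polynomials
-/

set_option autoImplicit false

namespace Pool.Agent.KS6_33.BD

open Polynomial Set Filter Topology Pool.Agent.R259

/-- `(x d/dx - g (a - 1)) ⋯ (x d/dx - g 0) P` -/
noncomputable def Dr (g : ℕ → ℝ) : ℕ → ℝ[X] → ℝ[X]
  | 0, P => P
  | (a + 1), P => D (g a) (Dr g a P)

/-- the multiplier -/
noncomputable def W (g : ℕ → ℝ) (a : ℕ) (k : ℕ) : ℝ := ∏ i ∈ Finset.range a, ((k : ℝ) - g i)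

lemma Dr_coeff (g : ℕ → ℝ) (a : ℕ) (P : ℝ[X]) (k : ℕ) :
    (Dr g a P).coeff k = W g a k * P.coeff k := by
  induction a with
  | zero => simp [Dr, W]
  | succ a ih =>
    rw [Dr, D_coeff, ih, W, W, Finset.prod_range_succ]; ring

lemma Dr_natDegree (g : ℕ → ℝ) (a : ℕ) {P : ℝ[X]} {N : ℕ} (h : P.natDegree ≤ N) :
    (Dr g a P).natDegree ≤ N := by
  rw [natDegree_le_iff_coeff_eq_zero]
  intro k hk
  rw [Dr_coeff, coeff_eq_zero_of_natDegree_lt (by omega), mul_zero]

lemma jn_natDegree (b : ℝ) (N : ℕ) : (jn b N).natDegree ≤ N := by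
  rw [natDegree_le_iff_coeff_eq_zero]
  intro m hm
  rw [jn_coeff, Nat.choose_eq_zero_of_lt hm]; simp

lemma jn_NR {b : ℝ} (hb : 0 < b) {N : ℕ} (hN : 0 < N) : NR (jn b N) N := by
  obtain ⟨c, hc, h0⟩ := jn_fac hb hN
  exact ⟨c, hc.2.1, fun i hi => ⟨h0 i hi, hc.root hi⟩⟩

/-- bound of the multiplier -/
lemma W_bound {g : ℕ → ℝ} {a : ℕ} {R : ℝ} (hR : ∀ i < a, |g i| ≤ R) (k : ℕ) :
    |W g a k| ≤ (1 + R) ^ a * ((2 : ℝ) ^ a) ^ k := by
  induction a with
  | zero => simp [W]
  | succ a ih =>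
    have hR0 : 0 ≤ R := (abs_nonneg _).trans (hR a (Nat.lt_succ_self a))
    have h1 := ih fun i hi => hR i (by omega)
    have h2 : |(k : ℝ) - g a| ≤ (1 + R) * 2 ^ k := by
      have h3 : (k : ℝ) + 1 ≤ 2 ^ k := by
        exact_mod_cast Nat.lt_two_pow_self
      have h4 := abs_sub (k : ℝ) (g a)
      have h5 := hR a (Nat.lt_succ_self a)
      have h6 : (0 : ℝ) ≤ k := Nat.cast_nonneg k
      rw [abs_of_nonneg h6] at h4
      nlinarith
    rw [W, Finset.prod_range_succ, abs_mul]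
    calc |∏ i ∈ Finset.range a, ((k : ℝ) - g i)| * |(k : ℝ) - g a|
        ≤ ((1 + R) ^ a * ((2 : ℝ) ^ a) ^ k) * ((1 + R) * 2 ^ k) := by
          apply mul_le_mul h1 h2 (abs_nonneg _) (by positivity)
      _ = _ := by rw [pow_succ, pow_succ (2 : ℝ) a, mul_pow]; ring

/-- the limit function -/
noncomputable def Fs (g : ℕ → ℝ) (T : ℕ) (b : ℝ) (x : ℂ) : ℂ :=
  ∑' k, ((W g T k * jc b k : ℝ) : ℂ) * x ^ k

lemma coeff_bound {b : ℝ} (hb : 1 / 2 ≤ b) {g : ℕ → ℝ} {a : ℕ} {R : ℝ} (hR : ∀ i < a, |g i| ≤ R)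
    (N k : ℕ) : |(Dr g a (jn b N)).coeff k| ≤
      (1 + R) ^ a * ((2 : ℝ) ^ a) ^ k * (2 / k.factorial) := by
  have hb0 : 0 < b := by linarith
  rw [Dr_coeff, abs_mul]
  have h1 := W_bound hR k
  have h2 := (jn_coeff_le hb0 N k).trans (jc_le hb k)
  have h3 := jn_coeff_nonneg hb0 N k
  rw [abs_of_nonneg h3]
  exact mul_le_mul h1 h2 h3 ((abs_nonneg _).trans h1)

lemma tendsto_Fs {b : ℝ} (hb : 1 / 2 ≤ b) (g : ℕ → ℝ) (T : ℕ) (r : ℕ) (x : ℂ) :
    Tendsto (fun N => aeval x (Dr g T (jn b (N + r)))) atTop (𝓝 (Fs g T b x)) := by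
  obtain ⟨R, hR⟩ : ∃ R : ℝ, ∀ i < T, |g i| ≤ R := by
    refine ⟨∑ i ∈ Finset.range T, |g i|, fun i hi => ?_⟩
    exact Finset.single_le_sum (f := fun i => |g i|) (fun _ _ => abs_nonneg _)
      (Finset.mem_range.2 hi)
  have h := tlu_poly (p := fun N => Dr g T (jn b (N + r))) (c := fun k => W g T k * jc b k)
    (B := fun k => (1 + R) ^ T * ((2 : ℝ) ^ T) ^ k * (2 / k.factorial)) ?_ ?_ ?_
  · exact h.tendsto_at (Set.mem_univ x)
  · intro s _
    have h1 := (Real.summable_pow_div_factorial ((2 : ℝ) ^ T * s)).mul_left ((1 + R) ^ T * 2)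
    refine h1.congr fun k => ?_
    rw [mul_pow]; ring
  · intro N k
    exact coeff_bound hb hR _ k
  · intro k
    simp_rw [Dr_coeff]
    exact ((jn_coeff_tendsto b k).comp (tendsto_add_atTop_nat r)).const_mul _

/-- The polynomial bounding the zeros of `Fs` off the negative axis. -/
theorem Fs_factor {b : ℝ} (hb : 1 / 2 ≤ b) {g : ℕ → ℝ} {T r : ℕ} (hg : ∀ i < T, g i ≠ 0)
    (h : ∀ᶠ N in atTop, NR (Dr g T (jn b N)) (N - r)) :
    ∃ A : ℝ[X], A ≠ 0 ∧ A.natDegree ≤ r ∧ ∀ K : Set ℂ, IsCompact K → K ⊆ Complex.slitPlane →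
      ∃ c > 0, ∀ x ∈ K, c * ‖aeval x A‖ ≤ ‖Fs g T b x‖ := by
  refine limit_factor' (P := fun N => Dr g T (jn b (N + r))) (tendsto_Fs hb g T r) ?_ ?_
  · have h1 : Fs g T b 0 = ((W g T 0 * jc b 0 : ℝ) : ℂ) := by
      unfold Fs
      rw [tsum_eq_single 0]
      · simp
      · intro k hk; rw [zero_pow hk, mul_zero]
    rw [h1]
    have h2 : W g T 0 ≠ 0 := by
      unfold W
      rw [Finset.prod_ne_zero_iff]
      intro i hi
      have := hg i (Finset.mem_range.1 hi)
      simpa using this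
    have h3 : jc b 0 ≠ 0 := (jc_pos (by linarith) 0).ne'
    exact_mod_cast mul_ne_zero h2 h3
  · have h1 := (tendsto_add_atTop_nat r).eventually h
    filter_upwards [h1] with N hN
    refine ⟨?_, Dr_natDegree g T (jn_natDegree b (N + r))⟩
    simpa using hN

/-- The sign conditions. -/
lemma sign_lemma {P : ℝ[X]} {N p : ℕ} {y β c S ε : ℝ} (hN : P.natDegree ≤ N) (hp : 1 ≤ p)
    (hpN : p ≤ N) (hlow : ∀ k < p, 0 ≤ (-1 : ℝ) ^ (p + k) * P.coeff k ∧ |P.coeff k| ≤ ε)
    (h0 : P.coeff 0 ≠ 0) (hpp : c ≤ P.coeff p) (hhigh : ∀ k, p < k → 0 ≤ P.coeff k)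
    (hS : ∑ k ∈ Finset.range (N + 1), (k : ℝ) * |P.coeff k| ≤ S) (hy0 : 0 < y) (hy1 : y ≤ 1)
    (hc : 0 < c) (hyS : y * S ≤ c / 8) (hβ0 : 0 < β) (hβp : β ≤ p - 1 / 4)
    (hε : p * (β * ε) < y ^ p * (c / 8)) :
    (∀ x, -y ≤ x → x ≤ 0 → 0 < (-1 : ℝ) ^ p * P.eval x) ∧
      0 < (-1 : ℝ) ^ p * (D β P).eval (-y) := by
  have hsq : ∀ k : ℕ, (-1 : ℝ) ^ k * (-1) ^ k = 1 := fun k => by rw [← mul_pow]; simp
  have hp1 : (1 : ℝ) ≤ p := by exact_mod_cast hp
  constructor
  · intro x hx1 hx2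
    obtain ⟨u, rfl⟩ : ∃ u, x = -u := ⟨-x, by ring⟩
    have hu0 : 0 ≤ u := by linarith
    have huy : u ≤ y := by linarith
    have hu1 : u ≤ 1 := huy.trans hy1
    rw [eval_eq_sum_range' (Nat.lt_succ_of_le hN), Finset.mul_sum]
    have key : ∀ k ∈ Finset.range (N + 1), (if k = 0 then |P.coeff 0| else 0) +
        (if k = p then c * u ^ p else 0) - u ^ (p + 1) * ((k : ℝ) * |P.coeff k|) ≤
        (-1 : ℝ) ^ p * (P.coeff k * (-u) ^ k) := by
      intro k _
      have e1 : (-1 : ℝ) ^ p * (P.coeff k * (-u) ^ k) = ((-1 : ℝ) ^ (p + k) * P.coeff k) * u ^ k := by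
        rw [neg_pow u k, pow_add]; ring
      rw [e1]
      have hk0 : (0 : ℝ) ≤ k := Nat.cast_nonneg k
      have hnn : 0 ≤ u ^ (p + 1) * ((k : ℝ) * |P.coeff k|) := by positivity
      rcases lt_trichotomy k p with hk | hk | hk
      · have h1 := (hlow k hk).1
        rw [if_neg hk.ne]
        by_cases hk00 : k = 0
        · subst hk00
          rw [if_pos rfl, pow_zero, mul_one]
          have h2 : |P.coeff 0| = (-1 : ℝ) ^ (p + 0) * P.coeff 0 := by
            rw [← abs_of_nonneg h1, abs_mul, abs_pow, abs_neg, abs_one, one_pow, one_mul]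
          rw [h2]; simp
        · rw [if_neg hk00]
          have : 0 ≤ ((-1 : ℝ) ^ (p + k) * P.coeff k) * u ^ k := mul_nonneg h1 (by positivity)
          linarith
      · subst hk
        rw [if_neg (by omega), if_pos rfl]
        have e2 : (-1 : ℝ) ^ (k + k) = 1 := by rw [pow_add]; exact hsq k
        rw [e2, one_mul]
        have : c * u ^ k ≤ P.coeff k * u ^ k := mul_le_mul_of_nonneg_right hpp (by positivity)
        linarith
      · rw [if_neg (by omega), if_neg (by omega)]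
        have h1 := hhigh k hk
        have h2 : -(P.coeff k) ≤ (-1 : ℝ) ^ (p + k) * P.coeff k := by
          rcases neg_one_pow_eq_or ℝ (p + k) with h | h <;> rw [h] <;> linarith
        have h3 : u ^ k ≤ u ^ (p + 1) := pow_le_pow_of_le_one hu0 hu1 (by omega)
        have h4 : (1 : ℝ) ≤ k := by exact_mod_cast (by omega : 1 ≤ k)
        rw [abs_of_nonneg h1]
        have h5 : 0 ≤ u ^ k := by positivity
        have h6 : P.coeff k * u ^ k ≤ u ^ (p + 1) * ((k : ℝ) * P.coeff k) := by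
          have : P.coeff k * u ^ k ≤ P.coeff k * u ^ (p + 1) := mul_le_mul_of_nonneg_left h3 h1
          have h7 : P.coeff k * u ^ (p + 1) ≤ (k * P.coeff k) * u ^ (p + 1) :=
            mul_le_mul_of_nonneg_right (by nlinarith) (by positivity)
          linarith
        nlinarith
    refine lt_of_lt_of_le ?_ (Finset.sum_le_sum key)
    rw [Finset.sum_sub_distrib, Finset.sum_add_distrib, Finset.sum_ite_eq' _ 0,
      Finset.sum_ite_eq' _ p, if_pos (Finset.mem_range.2 (by omega)),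
      if_pos (Finset.mem_range.2 (by omega)), ← Finset.mul_sum]
    have h1 : 0 < |P.coeff 0| := abs_pos.2 h0
    have h2 : u ^ (p + 1) * ∑ k ∈ Finset.range (N + 1), (k : ℝ) * |P.coeff k| ≤ c * u ^ p := by
      have h3 : 0 ≤ ∑ k ∈ Finset.range (N + 1), (k : ℝ) * |P.coeff k| :=
        Finset.sum_nonneg fun k _ => by positivity
      calc u ^ (p + 1) * ∑ k ∈ Finset.range (N + 1), (k : ℝ) * |P.coeff k|
          = u ^ p * (u * ∑ k ∈ Finset.range (N + 1), (k : ℝ) * |P.coeff k|) := by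
            rw [pow_succ]; ring
        _ ≤ u ^ p * (y * S) := by
            apply mul_le_mul_of_nonneg_left _ (by positivity)
            exact mul_le_mul huy hS h3 hy0.le
        _ ≤ u ^ p * c := by
            apply mul_le_mul_of_nonneg_left _ (by positivity)
            linarith
        _ = c * u ^ p := by ring
    linarith
  · have hDd : (D β P).natDegree ≤ N := by
      rw [natDegree_le_iff_coeff_eq_zero]
      intro k hk
      rw [D_coeff, coeff_eq_zero_of_natDegree_lt (by omega), mul_zero]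
    rw [eval_eq_sum_range' (Nat.lt_succ_of_le hDd), Finset.mul_sum]
    have key : ∀ k ∈ Finset.range (N + 1), (if k = p then (1 / 4) * (c * y ^ p) else 0) -
        (if k < p then β * ε else 0) - y ^ (p + 1) * ((k : ℝ) * |P.coeff k|) ≤
        (-1 : ℝ) ^ p * ((D β P).coeff k * (-y) ^ k) := by
      intro k _
      have e1 : (-1 : ℝ) ^ p * ((D β P).coeff k * (-y) ^ k) =
          ((k : ℝ) - β) * (((-1 : ℝ) ^ (p + k) * P.coeff k) * y ^ k) := by
        rw [neg_pow y k, pow_add, D_coeff]; ring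
      rw [e1]
      have hk0 : (0 : ℝ) ≤ k := Nat.cast_nonneg k
      have hnn : 0 ≤ y ^ (p + 1) * ((k : ℝ) * |P.coeff k|) := by positivity
      rcases lt_trichotomy k p with hk | hk | hk
      · obtain ⟨h1, h2⟩ := hlow k hk
        rw [if_neg hk.ne, if_pos hk]
        have h3 : |P.coeff k| = (-1 : ℝ) ^ (p + k) * P.coeff k := by
          rw [← abs_of_nonneg h1, abs_mul, abs_pow, abs_neg, abs_one, one_pow, one_mul]
        rw [← h3]
        have h4 : |P.coeff k| * y ^ k ≤ ε := by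
          have : y ^ k ≤ 1 := pow_le_one₀ hy0.le hy1
          have h5 := abs_nonneg (P.coeff k)
          nlinarith
        have h6 : 0 ≤ |P.coeff k| * y ^ k := by positivity
        nlinarith
      · subst hk
        rw [if_pos rfl, if_neg (lt_irrefl _)]
        have e2 : (-1 : ℝ) ^ (k + k) = 1 := by rw [pow_add]; exact hsq k
        rw [e2, one_mul]
        have h1 : c * y ^ k ≤ P.coeff k * y ^ k := mul_le_mul_of_nonneg_right hpp (by positivity)
        have h2 : 0 < c * y ^ k := by positivity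
        nlinarith
      · rw [if_neg (by omega), if_neg (by omega)]
        have h1 := hhigh k hk
        have hkp : (p : ℝ) < k := by exact_mod_cast hk
        have h2 : -(P.coeff k * y ^ k) ≤ ((-1 : ℝ) ^ (p + k) * P.coeff k) * y ^ k := by
          have h8 : 0 ≤ P.coeff k * y ^ k := by positivity
          rcases neg_one_pow_eq_or ℝ (p + k) with h | h <;> rw [h] <;> linarith
        have h3 : y ^ k ≤ y ^ (p + 1) := pow_le_pow_of_le_one hy0.le hy1 (by omega)
        rw [abs_of_nonneg h1]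
        have h4 : P.coeff k * y ^ k ≤ P.coeff k * y ^ (p + 1) := mul_le_mul_of_nonneg_left h3 h1
        have h5 : 0 ≤ P.coeff k * y ^ k := by positivity
        have h6 : ((k : ℝ) - β) * (P.coeff k * y ^ k) ≤ k * (P.coeff k * y ^ (p + 1)) := by
          calc ((k : ℝ) - β) * (P.coeff k * y ^ k) ≤ k * (P.coeff k * y ^ k) := by nlinarith
            _ ≤ _ := mul_le_mul_of_nonneg_left h4 hk0
        have h7 : 0 ≤ (k : ℝ) - β := by linarith
        have h8 := mul_le_mul_of_nonneg_left h2 h7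
        linarith
    refine lt_of_lt_of_le ?_ (Finset.sum_le_sum key)
    rw [Finset.sum_sub_distrib, Finset.sum_sub_distrib, Finset.sum_ite_eq' _ p,
      if_pos (Finset.mem_range.2 (by omega)), ← Finset.mul_sum]
    have h1 : ∑ k ∈ Finset.range (N + 1), (if k < p then β * ε else 0) = p * (β * ε) := by
      rw [← Finset.sum_filter]
      have : (Finset.range (N + 1)).filter (fun k => k < p) = Finset.range p := by
        ext k
        simp only [Finset.mem_filter, Finset.mem_range]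
        omega
      rw [this, Finset.sum_const, Finset.card_range, nsmul_eq_mul]
    rw [h1]
    have h2 : y ^ (p + 1) * ∑ k ∈ Finset.range (N + 1), (k : ℝ) * |P.coeff k| ≤ c / 8 * y ^ p := by
      calc y ^ (p + 1) * ∑ k ∈ Finset.range (N + 1), (k : ℝ) * |P.coeff k|
          = y ^ p * (y * ∑ k ∈ Finset.range (N + 1), (k : ℝ) * |P.coeff k|) := by
            rw [pow_succ]; ring
        _ ≤ y ^ p * (y * S) := by
            apply mul_le_mul_of_nonneg_left _ (by positivity)
            exact mul_le_mul_of_nonneg_left hS hy0.le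
        _ ≤ y ^ p * (c / 8) := mul_le_mul_of_nonneg_left hyS (by positivity)
        _ = c / 8 * y ^ p := by ring
    nlinarith

end Pool.Agent.KS6_33.BD
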