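import Mathlib
import Pool.Agent.KS6_33.BD.Ops

/-!
# The chain of operators
-/

set_option autoImplicit false

namespace Pool.Agent.KS6_33.BD

open Polynomial Set Filter Topology Pool.Agent.R259

lemma NR.zero (P : ℝ[X]) : NR P 0 :=
  ⟨fun _ => 0, fun _ _ _ hj => absurd hj (Nat.not_lt_zero _), fun _ hi => absurd hi (Nat.not_lt_zero _)⟩

lemma NR.steps {g : ℕ → ℝ} {P : ℝ[X]} {i k : ℕ} (h : NR (Dr g i P) k) (l : ℕ) :
    NR (Dr g (i + l) P) (k - l) := by
  induction l with
  | zero => simpa using h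
  | succ l ih =>
    rcases Nat.lt_or_ge l k with h1 | h1
    · have : k - l = (k - (l + 1)) + 1 := by omega
      rw [this] at ih
      exact ih.step (g (i + l))
    · have : k - (l + 1) = 0 := by omega
      rw [this]
      exact NR.zero _

lemma NR.steps_neg {g : ℕ → ℝ} {P : ℝ[X]} {k : ℕ} (h : NR P k) (a : ℕ) (hg : ∀ i < a, g i < 0) :
    NR (Dr g a P) k := by
  induction a with
  | zero => exact h
  | succ a ih => exact (ih fun i hi => hg i (by omega)).step_neg (hg a (Nat.lt_succ_self a))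

/-- `∏_{l<p} (k - l - θ)` -/
noncomputable def V (p : ℕ) (θ : ℝ) (k : ℕ) : ℝ := ∏ l ∈ Finset.range p, ((k : ℝ) - (l + θ))

lemma V_pos {p : ℕ} {θ : ℝ} (hθ : θ < 1) {k : ℕ} (hk : p ≤ k) : 0 < V p θ k := by
  apply Finset.prod_pos
  intro l hl
  have h1 : (l : ℝ) + 1 ≤ k := by
    have := Finset.mem_range.1 hl
    exact_mod_cast (by omega : l + 1 ≤ k)
  linarith

lemma V_sign {p : ℕ} {θ : ℝ} (hθ0 : 0 < θ) (hθ : θ < 1) {k : ℕ} (hk : k ≤ p) :
    0 < (-1 : ℝ) ^ (p + k) * V p θ k := by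
  induction p, hk using Nat.le_induction with
  | base =>
    have : (-1 : ℝ) ^ (k + k) = 1 := by rw [pow_add, ← mul_pow]; simp
    rw [this, one_mul]
    exact V_pos hθ le_rfl
  | succ p hp ih =>
    have e : (-1 : ℝ) ^ (p + 1 + k) * V (p + 1) θ k =
        ((-1 : ℝ) ^ (p + k) * V p θ k) * (p + θ - k) := by
      unfold V
      rw [Finset.prod_range_succ]
      ring
    rw [e]
    have : (k : ℝ) ≤ p := by exact_mod_cast hp
    exact mul_pos ih (by linarith)

lemma V_abs {p : ℕ} {θ : ℝ} (hθ0 : 0 < θ) (hθ : θ < 1) {k : ℕ} (hk : k < p) :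
    |V p θ k| ≤ θ * (p : ℝ) ^ p := by
  unfold V
  rw [Finset.abs_prod, ← Finset.mul_prod_erase _ _ (Finset.mem_range.2 hk)]
  have h1 : |(k : ℝ) - (k + θ)| = θ := by
    rw [show (k : ℝ) - (k + θ) = -θ by ring, abs_neg, abs_of_pos hθ0]
  rw [h1]
  apply mul_le_mul_of_nonneg_left _ hθ0.le
  have hp1 : (1 : ℝ) ≤ p := by exact_mod_cast (by omega : 1 ≤ p)
  calc ∏ l ∈ (Finset.range p).erase k, |(k : ℝ) - (l + θ)|
      ≤ ∏ l ∈ (Finset.range p).erase k, (p : ℝ) := by
        apply Finset.prod_le_prod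
        · intro i _; positivity
        · intro l hl
          have hl' := Finset.mem_range.1 (Finset.mem_of_mem_erase hl)
          have h2 : (l : ℝ) + 1 ≤ p := by exact_mod_cast (by omega : l + 1 ≤ p)
          have h3 : (k : ℝ) + 1 ≤ p := by exact_mod_cast (by omega : k + 1 ≤ p)
          have h4 : (0 : ℝ) ≤ k := Nat.cast_nonneg k
          have h5 : (0 : ℝ) ≤ l := Nat.cast_nonneg l
          rw [abs_le]
          constructor <;> linarith
    _ = (p : ℝ) ^ (p - 1) := by
        rw [Finset.prod_const, Finset.card_erase_of_mem (Finset.mem_range.2 hk), Finset.card_range]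
    _ ≤ (p : ℝ) ^ p := pow_le_pow_right₀ hp1 (by omega)

lemma V_lower {p : ℕ} {θ : ℝ} (hθ : θ ≤ 1 / 2) : (1 / 2 : ℝ) ^ p ≤ V p θ p := by
  unfold V
  rw [← Finset.card_range p, ← Finset.prod_const, Finset.card_range]
  apply Finset.prod_le_prod
  · intro i _; norm_num
  · intro l hl
    have h2 : (l : ℝ) + 1 ≤ p := by
      have := Finset.mem_range.1 hl
      exact_mod_cast (by omega : l + 1 ≤ p)
    linarith

lemma W_split {g : ℕ → ℝ} {a p : ℕ} {θ : ℝ} (hg : ∀ l < p, g (a + l) = l + θ) (k : ℕ) :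
    W g (a + p) k = W g a k * V p θ k := by
  unfold W V
  rw [Finset.prod_range_add]
  congr 1
  apply Finset.prod_congr rfl
  intro l hl
  rw [hg l (Finset.mem_range.1 hl)]

lemma W_neg_pos {g : ℕ → ℝ} {a : ℕ} (hg : ∀ i < a, g i < 0) (k : ℕ) : 0 < W g a k := by
  apply Finset.prod_pos
  intro i hi
  have := hg i (Finset.mem_range.1 hi)
  have : (0 : ℝ) ≤ k := Nat.cast_nonneg k
  linarith

lemma W_neg_one_le {g : ℕ → ℝ} {a : ℕ} (hg : ∀ i < a, g i < 0) {k : ℕ} (hk : 1 ≤ k) :
    1 ≤ W g a k := by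
  unfold W
  calc (1 : ℝ) = ∏ i ∈ Finset.range a, (1 : ℝ) := by simp
    _ ≤ _ := by
      apply Finset.prod_le_prod
      · intro i _; norm_num
      · intro i hi
        have := hg i (Finset.mem_range.1 hi)
        have : (1 : ℝ) ≤ k := by exact_mod_cast hk
        linarith

lemma W_neg_le {g : ℕ → ℝ} {a : ℕ} {R : ℝ} (hR : 0 ≤ R) (hg : ∀ i < a, g i < 0 ∧ -R ≤ g i)
    {k p : ℕ} (hk : k ≤ p) : W g a k ≤ (p + R) ^ a := by
  unfold W
  calc ∏ i ∈ Finset.range a, ((k : ℝ) - g i) ≤ ∏ i ∈ Finset.range a, ((p : ℝ) + R) := by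
        apply Finset.prod_le_prod
        · intro i hi
          have := (hg i (Finset.mem_range.1 hi)).1
          have : (0 : ℝ) ≤ k := Nat.cast_nonneg k
          linarith
        · intro i hi
          have := (hg i (Finset.mem_range.1 hi)).2
          have : (k : ℝ) ≤ p := by exact_mod_cast hk
          linarith
    _ = _ := by rw [Finset.prod_const, Finset.card_range]

lemma poch_le {b B : ℝ} (hb : 0 ≤ b) (hB : b ≤ B) (p : ℕ) : poch b p ≤ (B + p) ^ p := by
  have hp : poch b p = ∏ i ∈ Finset.range p, (b + i) := by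
    induction p with
    | zero => simp [poch_zero]
    | succ p ih => rw [poch_succ, ih, Finset.prod_range_succ]
  rw [hp]
  calc ∏ i ∈ Finset.range p, (b + (i : ℝ)) ≤ ∏ i ∈ Finset.range p, (B + p) := by
        apply Finset.prod_le_prod
        · intro i _; positivity
        · intro i hi
          have : (i : ℝ) ≤ p := by exact_mod_cast (Finset.mem_range.1 hi).le
          linarith
    _ = _ := by rw [Finset.prod_const, Finset.card_range]

theorem core (a p : ℕ) (hp : 1 ≤ p) (R Bm : ℝ) (hR : 0 ≤ R) (hBm : 0 ≤ Bm) :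
    ∃ θ0 > 0, ∀ (g : ℕ → ℝ) (b θ : ℝ) (T : ℕ), 1 / 2 ≤ b → b ≤ Bm → 0 < θ → θ < θ0 →
      (∀ i < a, g i < 0 ∧ -R ≤ g i) → (∀ l < p, g (a + l) = l + θ) → 0 < g (a + p) →
      g (a + p) ≤ p - 1 / 4 → a + p + 1 ≤ T →
      ∀ᶠ N in atTop, NR (Dr g T (jn b N)) (N - (T - a - 2)) := by
  have hp1 : (1 : ℝ) ≤ p := by exact_mod_cast hp
  set j0 : ℝ := 1 / (p.factorial * (Bm + p) ^ p) with hj0
  have hj0pos : 0 < j0 := by positivity
  set c : ℝ := (1 / 2) ^ p * (j0 / 2) with hc
  have hcpos : 0 < c := by positivity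
  set R' : ℝ := R + p with hR'
  have hR'0 : 0 ≤ R' := by positivity
  set S : ℝ := ∑' k : ℕ, (1 + R') ^ (a + p) * 2 * ((2 * 2 ^ (a + p)) ^ k / k.factorial) with hS
  have hsum : Summable fun k : ℕ =>
      (1 + R') ^ (a + p) * 2 * ((2 * (2 : ℝ) ^ (a + p)) ^ k / k.factorial) :=
    (Real.summable_pow_div_factorial _).mul_left _
  have hS0 : 0 ≤ S := tsum_nonneg fun k => by positivity
  set y : ℝ := min 1 (c / (8 * (S + 1))) with hy
  have hy0 : 0 < y := lt_min one_pos (by positivity)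
  have hy1 : y ≤ 1 := min_le_left _ _
  have hyS : y * S ≤ c / 8 := by
    have h1 : y ≤ c / (8 * (S + 1)) := min_le_right _ _
    have h2 : y * (S + 1) ≤ c / 8 := by
      calc y * (S + 1) ≤ c / (8 * (S + 1)) * (S + 1) := by gcongr
        _ = c / 8 := by field_simp
    nlinarith
  set E : ℝ := (p + R) ^ a * (p : ℝ) ^ p * 2 with hE
  have hE0 : 0 ≤ E := by positivity
  set θ0 : ℝ := min (1 / 2) (y ^ p * (c / 8) / (p * p * E + 1)) with hθ0
  refine ⟨θ0, lt_min (by norm_num) (by positivity), ?_⟩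
  intro g b θ T hb hbB hθp hθ hga hgp hβ0 hβp hT
  have hb0 : 0 < b := by linarith
  have hθ12 : θ < 1 / 2 := hθ.trans_le (min_le_left _ _)
  have hθ1 : θ < 1 := by linarith
  have hθc : p * p * E * θ < y ^ p * (c / 8) := by
    have h1 : θ < y ^ p * (c / 8) / (p * p * E + 1) := hθ.trans_le (min_le_right _ _)
    rw [lt_div_iff₀ (by positivity)] at h1
    nlinarith
  have hneg : ∀ i < a, g i < 0 := fun i hi => (hga i hi).1
  -- bounds
  have hRb : ∀ i < a + p, |g i| ≤ R' := by
    intro i hi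
    rcases Nat.lt_or_ge i a with h | h
    · have := hga i h
      rw [abs_le, hR']; constructor <;> linarith
    · obtain ⟨l, rfl⟩ := Nat.exists_eq_add_of_le h
      rw [hgp l (by omega)]
      have h2 : (l : ℝ) + 1 ≤ p := by exact_mod_cast (by omega : l + 1 ≤ p)
      have h3 : (0 : ℝ) ≤ l := Nat.cast_nonneg l
      rw [abs_le, hR']; constructor <;> linarith
  have hjp : j0 ≤ jc b p := by
    rw [hj0, jc]
    have h1 := poch_pos hb0 p
    have h2 := poch_le hb0.le hbB p
    apply one_div_le_one_div_of_le (by positivity)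
    gcongr
  have hevj : ∀ᶠ N in atTop, j0 / 2 < (jn b N).coeff p :=
    (jn_coeff_tendsto b p).eventually_const_lt (by linarith)
  filter_upwards [hevj, eventually_ge_atTop p] with N hNj hNp
  have hN0 : 0 < N := by omega
  set P := Dr g (a + p) (jn b N) with hP
  have hPc : ∀ k, P.coeff k = W g a k * V p θ k * (jn b N).coeff k := by
    intro k
    rw [hP, Dr_coeff, W_split hgp]
  have hdeg : P.natDegree ≤ N := Dr_natDegree g _ (jn_natDegree b N)
  have hjnn := fun k => jn_coeff_nonneg hb0 N k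
  have hj2 : ∀ k, (jn b N).coeff k ≤ 2 := by
    intro k
    refine ((jn_coeff_le hb0 N k).trans (jc_le hb k)).trans ?_
    have : (1 : ℝ) ≤ k.factorial := by exact_mod_cast Nat.one_le_iff_ne_zero.2 (Nat.factorial_ne_zero k)
    rw [div_le_iff₀ (by linarith)]
    linarith
  have hs := sign_lemma (P := P) (N := N) (p := p) (y := y) (β := g (a + p)) (c := c) (S := S)
    (ε := E * θ) hdeg hp hNp ?_ ?_ ?_ ?_ ?_ hy0 hy1 hcpos hyS hβ0 hβp ?_
  rotate_left
  · -- low coefficients
    intro k hk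
    have h1 := W_neg_pos hneg k
    have h2 := V_sign hθp hθ1 hk.le
    have h3 := V_abs hθp hθ1 hk
    have h4 := W_neg_le hR hga hk.le
    constructor
    · rw [hPc]
      have e : (-1 : ℝ) ^ (p + k) * (W g a k * V p θ k * (jn b N).coeff k) =
        W g a k * ((-1 : ℝ) ^ (p + k) * V p θ k) * (jn b N).coeff k := by ring
      rw [e]
      exact mul_nonneg (mul_nonneg h1.le h2.le) (hjnn k)
    · rw [hPc, abs_mul, abs_mul, abs_of_pos h1, abs_of_nonneg (hjnn k)]
      calc W g a k * |V p θ k| * (jn b N).coeff k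
          ≤ ((p + R) ^ a) * (θ * (p : ℝ) ^ p) * 2 := by
            apply mul_le_mul _ (hj2 k) (hjnn k) (by positivity)
            exact mul_le_mul h4 h3 (abs_nonneg _) (by positivity)
        _ = E * θ := by rw [hE]; ring
  · rw [hPc, jn_coeff_zero]
    have h1 := W_neg_pos hneg 0
    have h2 := V_sign hθp hθ1 (Nat.zero_le p)
    have h3 : V p θ 0 ≠ 0 := by
      intro h; rw [h, mul_zero] at h2; exact lt_irrefl _ h2
    simp only [mul_one]
    exact mul_ne_zero h1.ne' h3
  · rw [hPc, hc]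
    have h1 := W_neg_one_le hneg hp
    have h2 := V_lower (p := p) (θ := θ) hθ12.le
    have h3 : (0 : ℝ) < (1 / 2) ^ p := by positivity
    have h4 : (1 / 2 : ℝ) ^ p ≤ W g a p * V p θ p := by
      calc (1 / 2 : ℝ) ^ p ≤ V p θ p := h2
        _ = 1 * V p θ p := (one_mul _).symm
        _ ≤ _ := mul_le_mul_of_nonneg_right h1 (h3.le.trans h2)
    exact mul_le_mul h4 hNj.le (by positivity) (h3.le.trans h4)
  · intro k hk
    rw [hPc]
    exact mul_nonneg (mul_nonneg (W_neg_pos hneg k).le (V_pos hθ1 hk.le).le) (hjnn k)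
  · rw [hS]
    refine le_trans ?_ (hsum.sum_le_tsum (Finset.range (N + 1)) fun k _ => by positivity)
    apply Finset.sum_le_sum
    intro k _
    have h1 := coeff_bound hb hRb N k
    have h2 : (k : ℝ) ≤ 2 ^ k := by exact_mod_cast Nat.lt_two_pow_self.le
    calc (k : ℝ) * |P.coeff k|
        ≤ 2 ^ k * ((1 + R') ^ (a + p) * ((2 : ℝ) ^ (a + p)) ^ k * (2 / k.factorial)) :=
          mul_le_mul h2 h1 (abs_nonneg _) (by positivity)
      _ = _ := by rw [mul_pow]; ring
  · have h1 : g (a + p) ≤ p := by linarith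
    have h2 : 0 ≤ E * θ := by positivity
    have h3 : (p : ℝ) * (g (a + p) * (E * θ)) ≤ p * (p * (E * θ)) := by gcongr
    nlinarith
  obtain ⟨hs1, hs2⟩ := hs
  have h0 : NR (Dr g a (jn b N)) N := (jn_NR hb0 hN0).steps_neg a hneg
  have h1 : NR P (N - p) := h0.steps p
  have h2 : NR (Dr g (a + p + 1) (jn b N)) (N - p + 1) :=
    h1.improve hβ0 (show -y < 0 by linarith) hs1 hs2
  have h3 := h2.steps (T - (a + p + 1))
  have e : a + p + 1 + (T - (a + p + 1)) = T := by omega
  rw [e] at h3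
  exact h3.mono (by omega)

end Pool.Agent.KS6_33.BD
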