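import Mathlib
import Pool.Agent.KS6_33.BD.Core

/-!
# From the `x`-plane to the `z`-plane
-/

set_option autoImplicit false

namespace Pool.Agent.KS6_33.BD

open Polynomial Set Filter Topology Pool.Agent.R259

lemma tlu_Fs {b : ℝ} (hb : 1 / 2 ≤ b) (g : ℕ → ℝ) (T : ℕ) :
    TendstoLocallyUniformlyOn (fun N (x : ℂ) => aeval x (Dr g T (jn b N))) (Fs g T b) atTop
      Set.univ := by
  obtain ⟨R, hR⟩ : ∃ R : ℝ, ∀ i < T, |g i| ≤ R := by
    refine ⟨∑ i ∈ Finset.range T, |g i|, fun i hi => ?_⟩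
    exact Finset.single_le_sum (f := fun i => |g i|) (fun _ _ => abs_nonneg _)
      (Finset.mem_range.2 hi)
  refine tlu_poly (p := fun N => Dr g T (jn b N)) (c := fun k => W g T k * jc b k)
    (B := fun k => (1 + R) ^ T * ((2 : ℝ) ^ T) ^ k * (2 / k.factorial)) ?_ ?_ ?_
  · intro s _
    have h1 := (Real.summable_pow_div_factorial ((2 : ℝ) ^ T * s)).mul_left ((1 + R) ^ T * 2)
    refine h1.congr fun k => ?_
    rw [mul_pow]; ring
  · intro N k
    exact coeff_bound hb hR _ k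
  · intro k
    simp_rw [Dr_coeff]
    exact (jn_coeff_tendsto b k).const_mul _

lemma Fs_differentiable {b : ℝ} (hb : 1 / 2 ≤ b) (g : ℕ → ℝ) (T : ℕ) :
    Differentiable ℂ (Fs g T b) := by
  rw [← differentiableOn_univ]
  exact (tlu_Fs hb g T).differentiableOn (Eventually.of_forall fun n =>
    (Polynomial.differentiable_aeval _).differentiableOn) isOpen_univ

lemma slit {z : ℂ} (hz : z.im ≠ 0) : -(z / 2) ^ 2 ∈ Complex.slitPlane := by
  rw [Complex.mem_slitPlane_iff]
  have h1 : (-(z / 2) ^ 2).re = -(z.re ^ 2 - z.im ^ 2) / 4 := by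
    simp [sq, Complex.mul_re, Complex.div_re, Complex.div_im]
    ring
  have h2 : (-(z / 2) ^ 2).im = -(z.re * z.im) / 2 := by
    simp [sq, Complex.mul_im, Complex.div_re, Complex.div_im]
    ring
  rw [h1, h2]
  by_cases h : z.re = 0
  · left
    rw [h]
    have : 0 < z.im ^ 2 := by positivity
    linarith
  · right
    intro h0
    have : z.re * z.im = 0 := by linarith
    rcases mul_eq_zero.1 this with h3 | h3
    · exact h h3
    · exact hz h3

/-- Total multiplicity of the nonreal zeros. -/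
theorem count_z {A : ℝ[X]} {r : ℕ} {f : ℂ → ℂ} (hA : A ≠ 0) (hr : A.natDegree ≤ r)
    (hf : ∀ K : Set ℂ, IsCompact K → K ⊆ Complex.slitPlane →
      ∃ c > 0, ∀ x ∈ K, c * ‖aeval x A‖ ≤ ‖f x‖)
    {F : ℂ → ℂ} {κ : ℂ} (hκ : κ ≠ 0) (hF : ∀ z, F z = κ * f (-(z / 2) ^ 2))
    (hd : Differentiable ℂ F) (S : Finset ℂ) (hS : ∀ z ∈ S, z.im ≠ 0) :
    ∑ z ∈ S, analyticOrderNatAt F z ≤ 2 * r := by
  classical
  set A' : ℂ[X] := A.map (algebraMap ℝ ℂ) with hA'
  set Q : ℂ[X] := A'.comp (C (-1 / 4) * X ^ 2) with hQ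
  have hA'0 : A' ≠ 0 := (Polynomial.map_ne_zero_iff (algebraMap ℝ ℂ).injective).2 hA
  have hdeg2 : (C (-1 / 4 : ℂ) * X ^ 2).natDegree = 2 := by
    rw [natDegree_C_mul_X_pow]
    norm_num
  have hQ0 : Q ≠ 0 := by
    intro h0
    rcases comp_eq_zero_iff.1 h0 with h1 | h1
    · exact hA'0 h1
    · have := congrArg natDegree h1.2
      rw [hdeg2, natDegree_C] at this
      omega
  have hQd : Q.natDegree ≤ 2 * r := by
    rw [hQ, natDegree_comp, hdeg2, hA', natDegree_map]
    omega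
  have hQe : ∀ w : ℂ, Q.eval w = aeval (-(w / 2) ^ 2) A := by
    intro w
    rw [hQ, eval_comp, hA', eval_map_algebraMap]
    congr 1
    simp only [eval_mul, eval_C, eval_pow, eval_X]
    ring
  have key : ∀ z : ℂ, z.im ≠ 0 → analyticOrderNatAt F z ≤ Q.rootMultiplicity z := by
    intro z hz
    have hg : AnalyticAt ℂ F z := hd.analyticAt z
    have hopen : IsOpen {w : ℂ | w.im ≠ 0} := isOpen_ne_fun Complex.continuous_im continuous_const
    obtain ⟨ε, hε, hball⟩ := Metric.isOpen_iff.1 hopen z hz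
    have hsub : Metric.closedBall z (ε / 2) ⊆ {w : ℂ | w.im ≠ 0} :=
      (Metric.closedBall_subset_ball (by linarith)).trans hball
    obtain ⟨c, hc, hcK⟩ := hf ((fun w : ℂ => -(w / 2) ^ 2) '' Metric.closedBall z (ε / 2))
      ((isCompact_closedBall z _).image (by fun_prop)) (by
        rintro _ ⟨w, hw, rfl⟩
        exact slit (hsub hw))
    have h := order_le (g := F) (z := z) (Q := Q) hQ0 hg
      (c := ‖κ‖ * c) (mul_pos (norm_pos_iff.2 hκ) hc) (by
        filter_upwards [Metric.closedBall_mem_nhds z (half_pos hε)] with w hw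
        have h1 := hcK _ ⟨w, hw, rfl⟩
        rw [hF, norm_mul, hQe, mul_assoc]
        exact mul_le_mul_of_nonneg_left h1 (norm_nonneg _))
    rw [analyticOrderNatAt]
    exact ENat.toNat_le_of_le_coe h
  calc ∑ z ∈ S, analyticOrderNatAt F z ≤ ∑ z ∈ S, Q.roots.count z := by
        apply Finset.sum_le_sum
        intro z hz
        rw [count_roots]
        exact key z (hS z hz)
    _ ≤ ∑ z ∈ S ∪ Q.roots.toFinset, Q.roots.count z :=
        Finset.sum_le_sum_of_subset Finset.subset_union_left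
    _ = Q.roots.card := Multiset.sum_count_eq_card fun a ha =>
        Finset.mem_union_right _ (Multiset.mem_toFinset.2 ha)
    _ ≤ Q.natDegree := card_roots' Q
    _ ≤ 2 * r := hQd

/-- The order is finite at every point when the function does not vanish at `0`. -/
lemma order_ne_top {F : ℂ → ℂ} (hd : Differentiable ℂ F) (h0 : F 0 ≠ 0) (z : ℂ) :
    analyticOrderAt F z ≠ ⊤ := by
  intro htop
  have h1 : ∀ᶠ w in 𝓝 z, F w = 0 := analyticOrderAt_eq_top.1 htop
  have h2 : AnalyticOnNhd ℂ F univ := fun w _ => hd.analyticAt w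
  have h3 := h2.eqOn_zero_of_preconnected_of_eventuallyEq_zero isPreconnected_univ
    (mem_univ z) h1
  exact h0 (h3 (mem_univ 0))

/-- Finiteness of the set of nonreal zeros and the total multiplicity. -/
theorem finite_count {F : ℂ → ℂ} {M : ℕ} (hd : Differentiable ℂ F) (h0 : F 0 ≠ 0)
    (h : ∀ S : Finset ℂ, (∀ z ∈ S, z.im ≠ 0) → ∑ z ∈ S, analyticOrderNatAt F z ≤ M) :
    {z : ℂ | F z = 0 ∧ z.im ≠ 0}.Finite ∧
      ∑ᶠ z ∈ {z : ℂ | F z = 0 ∧ z.im ≠ 0}, analyticOrderNatAt F z ≤ M := by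
  have hpos : ∀ z : ℂ, F z = 0 → 1 ≤ analyticOrderNatAt F z := by
    intro z hz
    have h1 := order_ne_top hd h0 z
    have h2 : analyticOrderAt F z ≠ 0 := fun h3 =>
      ((hd.analyticAt z).analyticOrderAt_eq_zero.1 h3) hz
    rw [analyticOrderNatAt, Nat.one_le_iff_ne_zero]
    intro h3
    rcases ENat.toNat_eq_zero.1 h3 with h4 | h4
    · exact h2 h4
    · exact h1 h4
  have hfin : {z : ℂ | F z = 0 ∧ z.im ≠ 0}.Finite := by
    by_contra hinf
    obtain ⟨S, hS, hcard⟩ := Set.Infinite.exists_subset_card_eq hinf (M + 1)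
    have h1 := h S fun z hz => (hS hz).2
    have h2 : S.card ≤ ∑ z ∈ S, analyticOrderNatAt F z := by
      rw [Finset.card_eq_sum_ones]
      exact Finset.sum_le_sum fun z hz => hpos z (hS hz).1
    omega
  refine ⟨hfin, ?_⟩
  rw [finsum_mem_eq_finite_toFinset_sum _ hfin]
  exact h _ fun z hz => (hfin.mem_toFinset.1 hz).2

end Pool.Agent.KS6_33.BD
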