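import Mathlib
import Pool.Agent.KS6_33.BD.Plane

/-!
# Derivatives of Bessel functions just below the integer `n - t`
-/

set_option autoImplicit false

namespace Pool.Agent.KS6_33.BD

open Polynomial Set Filter Topology Pool.Agent.R259

/-- `∑ (-1)^m (ν+2m)(ν+2m-1)⋯(ν+2m-n+1) / (m! Γ(ν+m+1)) (z/2)^{2m}` -/
noncomputable def G (ν : ℝ) (n : ℕ) (z : ℂ) : ℂ :=
  ∑' m : ℕ, (((-1) ^ m * (∏ i ∈ Finset.range n, (ν + 2 * m - i)) /
    (m.factorial * Real.Gamma (ν + m + 1)) : ℝ) : ℂ) * (z / 2) ^ (2 * m)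

/-- the shifts -/
noncomputable def gg (ν : ℝ) (q i : ℕ) : ℝ :=
  if i < q then i - (ν + q) else (((i - q : ℕ) : ℝ) - ν) / 2

lemma W_gg (ν : ℝ) (q n k : ℕ) : W (gg ν q) (q + n) k =
    (∏ i ∈ Finset.range q, (ν + k + 1 + i)) *
      ((1 / 2) ^ n * ∏ j ∈ Finset.range n, (ν + 2 * k - j)) := by
  unfold W
  rw [Finset.prod_range_add]
  congr 1
  · rw [← Finset.prod_range_reflect]
    apply Finset.prod_congr rfl
    intro i hi
    have hi' := Finset.mem_range.1 hi
    rw [gg, if_pos (by omega)]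
    have : ((q - 1 - i : ℕ) : ℝ) = q - 1 - i := by
      rw [Nat.sub_sub, Nat.cast_sub (by omega)]
      push_cast; ring
    rw [this]; ring
  · have e : (1 / 2 : ℝ) ^ n = ∏ j ∈ Finset.range n, (1 / 2 : ℝ) := by
      rw [Finset.prod_const, Finset.card_range]
    rw [e, ← Finset.prod_mul_distrib]
    apply Finset.prod_congr rfl
    intro j _
    rw [gg, if_neg (by omega), Nat.add_sub_cancel_left]
    ring

lemma Gamma_add_nat (x : ℝ) (hx : ∀ i : ℕ, x + i ≠ 0) (q : ℕ) :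
    Real.Gamma (x + q) = Real.Gamma x * ∏ i ∈ Finset.range q, (x + i) := by
  induction q with
  | zero => simp
  | succ q ih =>
    have : x + ((q + 1 : ℕ) : ℝ) = (x + q) + 1 := by push_cast; ring
    rw [this, Real.Gamma_add_one (hx q), ih, Finset.prod_range_succ]
    ring

lemma poch_prod (b : ℝ) (p : ℕ) : poch b p = ∏ i ∈ Finset.range p, (b + i) := by
  induction p with
  | zero => simp [poch_zero]
  | succ p ih => rw [poch_succ, ih, Finset.prod_range_succ]

lemma G_eq {ν : ℝ} {q : ℕ} (hb : 0 < ν + q + 1) (hν : ∀ k : ℕ, ν + k + 1 ≠ 0) (n : ℕ) (z : ℂ) :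
    G ν n z = ((2 ^ n / Real.Gamma (ν + q + 1) : ℝ) : ℂ) *
      Fs (gg ν q) (q + n) (ν + q + 1) (-(z / 2) ^ 2) := by
  unfold G Fs
  rw [← tsum_mul_left]
  refine tsum_congr fun k => ?_
  rw [← mul_assoc, ← Complex.ofReal_mul]
  have e1 : (-(z / 2) ^ 2) ^ k = (((-1) ^ k : ℝ) : ℂ) * (z / 2) ^ (2 * k) := by
    rw [neg_pow, ← pow_mul]
    push_cast
    ring
  rw [e1, ← mul_assoc, ← Complex.ofReal_mul]
  congr 2
  rw [W_gg, jc, poch_prod]
  have hx : ∀ i : ℕ, ν + k + 1 + i ≠ 0 := by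
    intro i
    have := hν (k + i)
    push_cast at this
    intro h0
    apply this
    linarith
  have h1 := Gamma_add_nat (ν + k + 1) hx q
  have h2 := Gamma_add_nat (ν + q + 1) (fun i => by positivity) k
  have h3 : ν + k + 1 + q = ν + q + 1 + k := by ring
  rw [h3, h2] at h1
  have h4 : Real.Gamma (ν + q + 1) ≠ 0 := (Real.Gamma_pos_of_pos hb).ne'
  have h5 : ∏ i ∈ Finset.range k, (ν + q + 1 + (i : ℝ)) ≠ 0 :=
    Finset.prod_ne_zero_iff.2 fun i _ => by positivity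
  have h6 : ∏ i ∈ Finset.range q, (ν + k + 1 + (i : ℝ)) ≠ 0 :=
    Finset.prod_ne_zero_iff.2 fun i _ => hx i
  have h7 : Real.Gamma (ν + k + 1) ≠ 0 := by
    intro h0
    rw [h0, zero_mul] at h1
    exact mul_ne_zero h4 h5 h1
  have h8 : (k.factorial : ℝ) ≠ 0 := by positivity
  have h9 : ∏ i ∈ Finset.range q, (ν + k + 1 + (i : ℝ)) =
      Real.Gamma (ν + q + 1) * (∏ i ∈ Finset.range k, (ν + q + 1 + (i : ℝ))) /
        Real.Gamma (ν + k + 1) := by
    rw [h1]
    field_simp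
  rw [h9]
  field_simp
  rw [mul_assoc, ← mul_pow]
  norm_num

/-- Case `n - t ≥ 0`. -/
lemma case_one {n t m : ℕ} (hm : n = m + t) (ht : 2 ≤ t) : ∃ δ0 > 0, ∀ ν : ℝ,
    (m : ℝ) - δ0 < ν → ν < m → (∀ k : ℕ, ν + k + 1 ≠ 0) ∧ 1 / 2 ≤ ν + 1 ∧ (∀ i < n, gg ν 0 i ≠ 0) ∧
      ∀ᶠ N in atTop, NR (Dr (gg ν 0) n (jn (ν + 1) N)) (N - (t - 2)) := by
  obtain ⟨θ0, hθ0, h⟩ := core m 1 le_rfl (m + 1) (m + 1) (by positivity) (by positivity)
  refine ⟨min (1 / 2) (2 * θ0), lt_min (by norm_num) (by positivity), ?_⟩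
  intro ν h1 h2
  have hδ1 : (m : ℝ) - 1 / 2 < ν := by
    have := min_le_left (1 / 2) (2 * θ0)
    linarith
  have hδ2 : (m : ℝ) - 2 * θ0 < ν := by
    have := min_le_right (1 / 2) (2 * θ0)
    linarith
  have hm0 : (0 : ℝ) ≤ m := Nat.cast_nonneg m
  have hgg : ∀ i : ℕ, gg ν 0 i = (i - ν) / 2 := by
    intro i
    rw [gg, if_neg (by omega), Nat.sub_zero]
  refine ⟨fun k => ?_, by linarith, fun i _ => ?_, ?_⟩
  · have : (0 : ℝ) ≤ k := Nat.cast_nonneg k
    have : 0 < ν + k + 1 := by linarith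
    exact this.ne'
  · rw [hgg]
    intro h0
    have h3 : (i : ℝ) = ν := by linarith
    rcases Nat.lt_or_ge i m with h4 | h4
    · have : (i : ℝ) + 1 ≤ m := by exact_mod_cast h4
      linarith
    · have : (m : ℝ) ≤ i := by exact_mod_cast h4
      linarith
  · have h5 := h (gg ν 0) (ν + 1) ((m - ν) / 2) n (by linarith) (by linarith) (by linarith)
      (by linarith) (by
        intro i hi
        rw [hgg]
        have : (i : ℝ) + 1 ≤ m := by exact_mod_cast hi
        have : (0 : ℝ) ≤ i := Nat.cast_nonneg i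
        constructor <;> linarith) (by
        intro l hl
        have : l = 0 := by omega
        subst this
        rw [hgg]; simp) (by
        rw [hgg]; push_cast; linarith) (by
        rw [hgg]; push_cast; linarith) (by omega)
    have e : n - m - 2 = t - 2 := by omega
    rwa [e] at h5

/-- Case `n - t < 0`. -/
lemma case_two {n t p : ℕ} (hp : t = n + p) (hp1 : 1 ≤ p) (hn : 1 ≤ n) : ∃ δ0 > 0, ∀ ν : ℝ,
    -(p : ℝ) - δ0 < ν → ν < -p → (∀ k : ℕ, ν + k + 1 ≠ 0) ∧ 1 / 2 ≤ ν + p + 1 ∧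
      (∀ i < p + n, gg ν p i ≠ 0) ∧
      ∀ᶠ N in atTop, NR (Dr (gg ν p) (p + n) (jn (ν + p + 1) N)) (N - (t - 2)) := by
  obtain ⟨θ0, hθ0, h⟩ := core 0 p hp1 0 1 le_rfl zero_le_one
  refine ⟨min (1 / 2) θ0, lt_min (by norm_num) (by positivity), ?_⟩
  intro ν h1 h2
  have hδ1 : -(p : ℝ) - 1 / 2 < ν := by
    have := min_le_left (1 / 2) θ0
    linarith
  have hδ2 : -(p : ℝ) - θ0 < ν := by
    have := min_le_right (1 / 2) θ0
    linarith
  have hp0 : (1 : ℝ) ≤ p := by exact_mod_cast hp1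
  have hint : ∀ j : ℕ, ν + j ≠ 0 := by
    intro j h0
    have h3 : ν = -(j : ℝ) := by linarith
    rcases Nat.lt_or_ge p j with h4 | h4
    · have : (p : ℝ) + 1 ≤ j := by exact_mod_cast h4
      linarith
    · have : (j : ℝ) ≤ p := by exact_mod_cast h4
      linarith
  refine ⟨fun k => ?_, by linarith, fun i _ => ?_, ?_⟩
  · have := hint (k + 1)
    push_cast at this
    intro h0
    apply this
    linarith
  · unfold gg
    split_ifs with h3
    · have h4 : (0 : ℝ) ≤ i := Nat.cast_nonneg i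
      intro h0
      linarith
    · intro h0
      have h4 : (0 : ℝ) ≤ ((i - p : ℕ) : ℝ) := Nat.cast_nonneg _
      linarith
  · have h5 := h (gg ν p) (ν + p + 1) (-(ν + p)) (p + n) (by linarith) (by linarith) (by linarith)
      (by linarith) (by intro i hi; omega) (by
        intro l hl
        rw [gg, if_pos (by omega)]
        simp only [zero_add]
        ring) (by
        rw [gg, if_neg (by omega), show 0 + p - p = 0 by omega]
        push_cast; linarith) (by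
        rw [gg, if_neg (by omega), show 0 + p - p = 0 by omega]
        push_cast; linarith) (by omega)
    have e : p + n - 0 - 2 = t - 2 := by omega
    rwa [e] at h5

/-- **Main theorem.** -/
theorem main {n t : ℕ} (hn : 1 ≤ n) (ht : 2 ≤ t) : ∃ δ0 > 0, ∀ ν : ℝ,
    (n : ℝ) - t - δ0 < ν → ν < n - t → Differentiable ℂ (G ν n) ∧ G ν n 0 ≠ 0 ∧
      ∀ (κ : ℂ), κ ≠ 0 → ∀ S : Finset ℂ, (∀ z ∈ S, z.im ≠ 0) →
        ∑ z ∈ S, analyticOrderNatAt (fun z => κ * G ν n z) z ≤ 2 * (t - 2) := by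
  -- common part
  have common : ∀ (ν : ℝ) (q : ℕ), (∀ k : ℕ, ν + k + 1 ≠ 0) → 1 / 2 ≤ ν + q + 1 →
      (∀ i < q + n, gg ν q i ≠ 0) →
      (∀ᶠ N in atTop, NR (Dr (gg ν q) (q + n) (jn (ν + q + 1) N)) (N - (t - 2))) →
      Differentiable ℂ (G ν n) ∧ G ν n 0 ≠ 0 ∧
      ∀ (κ : ℂ), κ ≠ 0 → ∀ S : Finset ℂ, (∀ z ∈ S, z.im ≠ 0) →
        ∑ z ∈ S, analyticOrderNatAt (fun z => κ * G ν n z) z ≤ 2 * (t - 2) := by
    intro ν q h1 h2 h3 h4
    have hb0 : 0 < ν + q + 1 := by linarith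
    have hG := G_eq hb0 h1 n
    have hκ0 : ((2 ^ n / Real.Gamma (ν + q + 1) : ℝ) : ℂ) ≠ 0 := by
      have := Real.Gamma_pos_of_pos hb0
      have h5 : (2 ^ n / Real.Gamma (ν + q + 1) : ℝ) ≠ 0 := by positivity
      exact_mod_cast h5
    have hd : Differentiable ℂ (G ν n) := by
      have e : G ν n = fun z => ((2 ^ n / Real.Gamma (ν + q + 1) : ℝ) : ℂ) *
          Fs (gg ν q) (q + n) (ν + q + 1) (-(z / 2) ^ 2) := funext hG
      rw [e]
      have h6 := Fs_differentiable h2 (gg ν q) (q + n)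
      have h7 : Differentiable ℂ fun z : ℂ => -(z / 2) ^ 2 := by fun_prop
      exact (h6.comp h7).const_mul _
    refine ⟨hd, ?_, ?_⟩
    · rw [hG]
      refine mul_ne_zero hκ0 ?_
      have e : (-((0 : ℂ) / 2) ^ 2) = 0 := by norm_num
      rw [e, Fs, tsum_eq_single 0]
      · have h5 : W (gg ν q) (q + n) 0 ≠ 0 := by
          unfold W
          rw [Finset.prod_ne_zero_iff]
          intro i hi
          have := h3 i (Finset.mem_range.1 hi)
          simpa using this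
        have h6 := (jc_pos hb0 0).ne'
        rw [pow_zero, mul_one]
        exact_mod_cast mul_ne_zero h5 h6
      · intro k hk
        rw [zero_pow hk, mul_zero]
    · intro κ hκ S hS
      obtain ⟨A, hA0, hAd, hA⟩ := Fs_factor h2 h3 h4
      refine count_z hA0 hAd hA (mul_ne_zero hκ hκ0) (fun z => ?_) (hd.const_mul κ) S hS
      rw [hG, mul_assoc]
  rcases Nat.lt_or_ge n t with h | h
  · obtain ⟨p, rfl⟩ := Nat.exists_eq_add_of_le h.le
    obtain ⟨δ0, hδ0, H⟩ := case_two (n := n) (t := n + p) (p := p) rfl (by omega) hn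
    refine ⟨δ0, hδ0, fun ν h1 h2 => ?_⟩
    push_cast at h1 h2
    obtain ⟨a1, a2, a3, a4⟩ := H ν (by linarith) (by linarith)
    exact common ν p a1 a2 a3 a4
  · obtain ⟨m, hm⟩ := Nat.exists_eq_add_of_le h
    obtain ⟨δ0, hδ0, H⟩ := case_one (n := n) (t := t) (m := m) (by omega) ht
    refine ⟨δ0, hδ0, fun ν h1 h2 => ?_⟩
    have e : (n : ℝ) - t = m := by rw [hm]; push_cast; ring
    rw [e] at h1 h2
    obtain ⟨a1, a2, a3, a4⟩ := H ν h1 h2
    refine common ν 0 a1 (by simpa using a2) (by simpa using a3) ?_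
    simpa using a4

end Pool.Agent.KS6_33.BD
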